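import Pool.Agent.MP_75da70_an.H8.FDefs

/-
The chain complex on lists.
-/

namespace Pool.Agent.MP_75da70_an.H8

open Set Finsupp

section Fibre

variable {T : Type} {le : T → T → Prop} {B : Set T} {N : ℕ}

@[simp] theorem cone_single (x : T) (c : List T) (a : ℂ) :
    cone x (single c a) = single (x :: c) a := by simp [cone]

@[simp] theorem dF_single (c : List T) (a : ℂ) : dF (single c a) = a • dB c := by simp [dF]

theorem dB_cons (x : T) {c : List T} (h : c ≠ []) : dB (x :: c) = single c 1 - cone x (dB c) := by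
  obtain _ | ⟨y, l⟩ := c
  · exact absurd rfl h
  · rfl

/-- two linear maps that agree on the basis lists in `S` agree on the span. -/
theorem ext_supp {M : Type} [AddCommGroup M] [Module ℂ M] {f g : FL T →ₗ[ℂ] M} {S : Set (List T)}
    (h : ∀ c ∈ S, f (single c 1) = g (single c 1)) {ζ : FL T} (hζ : ζ ∈ supported ℂ ℂ S) :
    f ζ = g ζ := by
  rw [supported_eq_span_single] at hζ
  exact LinearMap.eqOn_span (by rintro _ ⟨c, hc, rfl⟩; exact h c hc) hζ

theorem map_supp {M : Type} [AddCommGroup M] [Module ℂ M] {f : FL T →ₗ[ℂ] M} {S : Set (List T)}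
    {P : Submodule ℂ M} (h : ∀ c ∈ S, f (single c 1) ∈ P) {ζ : FL T} (hζ : ζ ∈ supported ℂ ℂ S) :
    f ζ ∈ P := by
  rw [supported_eq_span_single] at hζ
  exact (Submodule.span_le (p := P.comap f)).2 (by rintro _ ⟨c, hc, rfl⟩; exact h c hc) hζ

theorem single_supp {S : Set (List T)} {c : List T} (h : c ∈ S) (a : ℂ) :
    single c a ∈ supported ℂ ℂ S := single_mem_supported ℂ a h

/-- the boundary is supported on sublists with the same last entry. -/
theorem dB_supp (c : List T) : dB c ∈ supported ℂ ℂ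
    {c' | c' ≠ [] ∧ c'.getLast? = c.getLast? ∧ c'.length + 1 = c.length ∧ c'.Sublist c} := by
  induction c with
  | nil => exact zero_mem _
  | cons x c ih =>
    obtain _ | ⟨y, l⟩ := c
    · exact zero_mem _
    · refine sub_mem (single_supp (by exact ⟨by simp, by simp, rfl, by simp⟩) _) (map_supp ?_ ih)
      rintro (_ | ⟨z, c'⟩) ⟨h1, h2, h3, h4⟩
      · exact absurd rfl h1
      · rw [cone_single]
        exact single_supp (by exact ⟨by simp, by simpa using h2, by simpa using h3, h4.cons_cons x⟩) _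

theorem dF_cone (x : T) {ζ : FL T} (h : ζ ∈ supported ℂ ℂ {c | c ≠ []}) :
    dF (cone x ζ) = ζ - cone x (dF ζ) :=
  ext_supp (f := dF ∘ₗ cone x) (g := LinearMap.id - cone x ∘ₗ dF)
    (fun c hc => by simp [dB_cons x hc]) h

theorem dF_dB (c : List T) : dF (dB c) = 0 := by
  induction c with
  | nil => exact map_zero _
  | cons x c ih =>
    obtain rfl | h := eq_or_ne c []
    · exact map_zero _
    · rw [dB_cons x h, map_sub, dF_cone x (supported_mono (fun _ h => h.1) (dB_supp c)), ih]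
      simp

theorem dF_dF (ζ : FL T) : dF (dF ζ) = 0 :=
  DFunLike.congr_fun (show dF ∘ₗ dF = (0 : FL T →ₗ[ℂ] FL T) from by ext1 c; ext1; simp [dF_dB]) ζ

theorem Sx_mono (h : POrd le N) {k : ℕ} {q x : T} (hq : le q x) : Sx le B k q ⊆ Sx le B k x :=
  fun _ ⟨h1, h2, a, t, h3, h4⟩ => ⟨h1, h2, a, t, h3, h.trans _ _ _ h4 hq⟩

theorem So_mono (h : POrd le N) {k : ℕ} {q x : T} (hq : le q x) : So le B k q ⊆ So le B k x := by
  rintro c ⟨h1, h2⟩
  refine ⟨Sx_mono h hq h1, ?_⟩
  rintro rfl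
  obtain ⟨-, -, a, t, h3, h4⟩ := h1
  obtain ⟨rfl, -⟩ := List.cons.inj h3
  exact h2 (by rw [h.anti _ _ hq h4])

theorem Zf_mono (h : POrd le N) {k : ℕ} {q x : T} (hq : le q x) : Zf le B k q ≤ Zf le B k x :=
  inf_le_inf_right _ (supported_mono (So_mono h hq))

theorem isCh_cons {x : T} {c : List T} (h : c ≠ []) :
    IsCh le B (x :: c) ↔ (∃ a t, c = a :: t ∧ le a x ∧ x ≠ a) ∧ IsCh le B c := by
  obtain _ | ⟨y, l⟩ := c
  · exact absurd rfl h
  · simp [IsCh]

theorem IsCh.ne_nil {c : List T} (h : IsCh le B c) : c ≠ [] := by rintro rfl; exact h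

theorem isCh_iff {c : List T} : IsCh le B c ↔
    c.IsChain (fun x y => le y x ∧ x ≠ y) ∧ ∃ p ∈ B, c.getLast? = some p := by
  induction c with
  | nil => simp [IsCh]
  | cons x c ih =>
    obtain _ | ⟨y, l⟩ := c
    · simp [IsCh]
    · simp [IsCh, ih, and_assoc]

theorem isCh_iff' (h : POrd le N) {c : List T} : IsCh le B c ↔
    c.Pairwise (fun x y => le y x ∧ x ≠ y) ∧ ∃ p ∈ B, c.getLast? = some p := by
  have : IsTrans T fun x y => le y x ∧ x ≠ y := ⟨fun a b c h1 h2 => ⟨h.trans _ _ _ h2.1 h1.1, by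
    rintro rfl
    exact h1.2 (h.anti _ _ h2.1 h1.1)⟩⟩
  rw [isCh_iff, List.isChain_iff_pairwise]

theorem mem_Sx (h : POrd le N) {k : ℕ} {x : T} {c : List T} : c ∈ Sx le B k x ↔
    IsCh le B c ∧ c.length = k + 1 ∧ ∀ a ∈ c, le a x := by
  refine and_congr_right fun h1 => and_congr_right fun _ => ⟨?_, fun h2 => ?_⟩
  · rintro ⟨a, t, rfl, h2⟩ b hb
    rcases List.mem_cons.1 hb with rfl | hb
    · exact h2
    · exact h.trans _ _ _ (List.rel_of_pairwise_cons ((isCh_iff' h).1 h1).1 hb).1 h2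
  · obtain _ | ⟨a, t⟩ := c
    · exact h1.elim
    · exact ⟨a, t, rfl, h2 a (by simp)⟩

theorem finite_le (h : POrd le N) (x : T) : {q | le q x}.Finite := by
  by_contra hc
  obtain ⟨S, h1, h2⟩ := Set.Infinite.exists_subset_card_eq hc (N + 1)
  have := h.ord x S h1
  omega

theorem card_Sx (h : POrd le N) (k : ℕ) (x : T) (S : Finset (List T))
    (hS : ∀ c ∈ S, c ∈ Sx le B k x) : S.card ≤ N ^ (k + 1) := by
  classical
  have : S ⊆ (Fintype.piFinset fun _ : Fin (k + 1) => (finite_le h x).toFinset).image List.ofFn :=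
    fun c hc => by
      obtain ⟨-, h2, h3⟩ := (mem_Sx h).1 (hS c hc)
      exact Finset.mem_image.2 ⟨fun i => c.get (i.cast h2.symm), by simpa using fun i => h3 _ (by simp),
        List.ext_getElem (by simp [h2]) fun i _ _ => by rw [List.getElem_ofFn]; rfl⟩
  refine (Finset.card_le_card this).trans (Finset.card_image_le.trans ?_)
  rw [Fintype.card_piFinset_const]
  exact Nat.pow_le_pow_left (h.ord x _ (by simp)) _

theorem finite_Sx (h : POrd le N) (k : ℕ) (x : T) : (Sx le B k x).Finite := by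
  by_contra hc
  obtain ⟨S, h1, h2⟩ := Set.Infinite.exists_subset_card_eq hc (N ^ (k + 1) + 1)
  have := card_Sx h k x S h1
  omega

theorem dF_mem_Zf (h : POrd le N) {k : ℕ} {x : T} {ζ : FL T}
    (hζ : ζ ∈ Finsupp.supported ℂ ℂ (Sx le B (k + 1) x)) : dF ζ ∈ Zf le B k x := by
  refine ⟨map_supp (fun c hc => ?_) hζ, dF_dF ζ⟩
  rw [dF_single, one_smul]
  refine supported_mono ?_ (dB_supp c)
  rintro c' ⟨-, h2, h3, h4⟩
  obtain ⟨h5, h6, h7⟩ := (mem_Sx h).1 hc
  rw [isCh_iff' h] at h5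
  refine ⟨(mem_Sx h).2 ⟨(isCh_iff' h).2 ⟨h5.1.sublist h4, h2 ▸ h5.2⟩, by omega,
    fun a ha => h7 a (h4.subset ha)⟩, ?_⟩
  rintro rfl
  obtain _ | ⟨a, _ | ⟨b, t⟩⟩ := c
  · simp at h6
  · simp at h6
  · have := List.rel_of_pairwise_cons h5.1 (List.mem_of_getLast? (a := x) (by simpa using h2.symm))
    exact this.2 (h.anti _ _ (h7 a (by simp)) this.1)

theorem norm_dB_le (c c' : List T) : ‖dB c c'‖ ≤ c.length := by
  classical
  induction c generalizing c' with
  | nil => simp [dB]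
  | cons x c ih =>
    obtain rfl | h := eq_or_ne c []
    · simp [dB]
    rw [dB_cons x h, Finsupp.sub_apply, List.length_cons, Nat.cast_succ, add_comm]
    refine (norm_sub_le _ _).trans (add_le_add ?_ ?_)
    · rw [single_apply]; split_ifs <;> simp
    · by_cases hc : c' ∈ range (List.cons x)
      · obtain ⟨t, rfl⟩ := hc
        rw [cone, lmapDomain_apply, mapDomain_apply (List.cons_injective)]
        exact ih t
      · rw [cone, lmapDomain_apply, mapDomain_of_notMem_range _ _ hc]; simp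

theorem hF_pos {y : T} {c : List T} (h : c.head? = some y) : hF y (single c 1) = 0 := by
  simp [hF, h]

theorem hF_neg {y : T} {c : List T} (h : c.head? ≠ some y) :
    hF y (single c 1) = single (y :: c) 1 := by simp [hF, h]

theorem hF_cone (y : T) (ζ : FL T) : hF y (cone y ζ) = 0 :=
  DFunLike.congr_fun (show hF y ∘ₗ cone y = 0 from by ext1 c; ext1; simp [hF_pos]) ζ

theorem hF_mem (h : POrd le N) {k : ℕ} {y : T} {ζ : FL T} (hζ : ζ ∈ Zf le B k y) :
    hF y ζ ∈ Finsupp.supported ℂ ℂ (Sx le B (k + 1) y) ∧ dF (hF y ζ) = ζ := by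
  constructor
  · refine map_supp (fun c hc => ?_) hζ.1
    by_cases hy : c.head? = some y
    · rw [hF_pos hy]; exact zero_mem _
    · obtain ⟨⟨h1, h2, a, t, rfl, h3⟩, -⟩ := hc
      rw [hF_neg hy]
      exact single_supp (by exact ⟨⟨⟨h3, fun e => hy (by simp [e])⟩, h1⟩, by simpa using h2, y, _,
        rfl, h.refl y⟩) _
  have := ext_supp (f := dF ∘ₗ hF y + hF y ∘ₗ dF) (g := LinearMap.id) (fun c hc => ?_) hζ.1
  · simpa [show dF ζ = 0 from hζ.2] using this
  obtain ⟨⟨h1, -, a, t, rfl, h3⟩, h4⟩ := hc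
  have h5 := fun b => List.rel_of_pairwise_cons (a' := b) ((isCh_iff' h).1 h1).1
  simp only [LinearMap.add_apply, LinearMap.comp_apply, dF_single, one_smul, LinearMap.id_apply]
  obtain rfl | hy := eq_or_ne a y
  · have ht : t ≠ [] := by rintro rfl; exact h4 rfl
    rw [hF_pos rfl, dB_cons a ht, map_sub, hF_cone,
      hF_neg fun e => (h5 a (List.mem_of_head? e)).2 rfl]
    simp
  · rw [hF_neg (by simpa using hy), dF_single, one_smul, dB_cons y (by simp),
      ext_supp (f := hF y) (g := cone y) (fun c hc => ?_) (dB_supp _), sub_add_cancel]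
    rw [cone_single, hF_neg fun e => ?_]
    rcases List.mem_cons.1 (hc.2.2.2.subset (List.mem_of_head? e)) with e | e
    · exact hy e.symm
    · exact hy (h.anti _ _ h3 (h5 y e).1)

/-- the boundary keeps the last entry. -/
theorem dF_filter (B' : Set T) [DecidablePred fun c : List T => ∃ p ∈ B', c.getLast? = some p]
    (ζ : FL T) : dF (ζ.filter fun c => ∃ p ∈ B', c.getLast? = some p) =
      (dF ζ).filter fun c => ∃ p ∈ B', c.getLast? = some p := by
  induction ζ using Finsupp.induction_linear with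
  | zero => simp [filter_zero]
  | add f g hf hg => rw [filter_add, map_add, map_add, filter_add, hf, hg]
  | single c a =>
    have h1 := (mem_supported' ℂ _).1 (Submodule.smul_mem _ a (dB_supp c))
    by_cases h : ∃ p ∈ B', c.getLast? = some p
    · rw [filter_single_of_pos (fun c : List T => ∃ p ∈ B', c.getLast? = some p) h, dF_single, eq_comm,
        filter_eq_self_iff]
      intro c' hc'
      by_contra h2
      exact hc' (h1 c' fun h3 => h2 (h3.2.1 ▸ h))
    · rw [filter_single_of_neg (fun c : List T => ∃ p ∈ B', c.getLast? = some p) h, dF_single,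
        map_zero, eq_comm, filter_eq_zero_iff]
      exact fun c' hc' => h1 c' fun h3 => h (h3.2.1 ▸ hc')

theorem mem_Sx_sub {B' : Set T} (hB : B' ⊆ B) {k : ℕ} {x : T} {c : List T} :
    c ∈ Sx le B' k x ↔ c ∈ Sx le B k x ∧ ∃ p ∈ B', c.getLast? = some p := by
  simp only [Sx, mem_ofPred_eq, isCh_iff]
  exact ⟨fun ⟨⟨h1, p, hp, h2⟩, h3⟩ => ⟨⟨⟨h1, p, hB hp, h2⟩, h3⟩, p, hp, h2⟩,
    fun ⟨⟨⟨h1, _⟩, h3⟩, h2⟩ => ⟨⟨h1, h2⟩, h3⟩⟩

theorem dB_map {T' : Type} (e : T → T') (c : List T) :
    dB (c.map e) = Finsupp.mapDomain (List.map e) (dB c) := by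
  induction c with
  | nil => simp [dB]
  | cons x c ih =>
    obtain rfl | h := eq_or_ne c []
    · simp [dB]
    rw [List.map_cons, dB_cons _ (by simpa using h), dB_cons _ h, mapDomain_sub, mapDomain_single,
      ih, cone, cone, lmapDomain_apply, lmapDomain_apply, ← mapDomain_comp, ← mapDomain_comp]
    rfl

theorem dF_map {T' : Type} (e : T → T') (ζ : FL T) :
    dF (Finsupp.mapDomain (List.map e) ζ) = Finsupp.mapDomain (List.map e) (dF ζ) :=
  DFunLike.congr_fun (show dF ∘ₗ lmapDomain ℂ ℂ (List.map e) = lmapDomain ℂ ℂ (List.map e) ∘ₗ dF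
    from by ext1 c; ext1; simp [dB_map]) ζ

theorem Good.mono {k : ℕ} {x : T} {K K' : Set T} {ℓ : List T → FL T} (h : Good le B k x K ℓ)
    (hK : K' ⊆ K) : Good le B k x K' ℓ := ⟨h.mem, h.ret, fun q hq => h.cpt q (hK hq)⟩

end Fibre

end Pool.Agent.MP_75da70_an.H8
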