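import Pool.Agent.MP_75da70_an.H88.Fibre

/-
Transport of fibres along an injective map, and the universal bound.
-/

namespace Pool.Agent.MP_75da70_an.H8

open Set Finsupp

section Fibre

variable {T : Type} {le : T → T → Prop} {B : Set T} {N : ℕ}

theorem exists_enum (h : POrd le N) (x : T) :
    ∃ m ≤ N, ∃ e : Fin m → T, Function.Injective e ∧ range e = {q | le q x} :=
  ⟨_, h.ord x (finite_le h x).toFinset (by simp), fun i => (finite_le h x).toFinset.equivFin.symm i,
    Subtype.val_injective.comp (Equiv.injective _), by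
      rw [show (fun i => ((finite_le h x).toFinset.equivFin.symm i : T)) =
        Subtype.val ∘ (finite_le h x).toFinset.equivFin.symm from rfl, EquivLike.range_comp]
      simp⟩

section Transport

variable {T₀ : Type} {e : T₀ → T}

theorem POrd.comap (h : POrd le N) (he : Function.Injective e) :
    POrd (fun a b => le (e a) (e b)) N :=
  ⟨fun _ => h.refl _, fun _ _ _ => h.trans _ _ _, fun _ _ h1 h2 => he (h.anti _ _ h1 h2),
    fun y S hS => by simpa using h.ord (e y) (S.map ⟨e, he⟩) (by simpa using hS)⟩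

theorem isCh_map (he : Function.Injective e) {c : List T₀} :
    IsCh le B (c.map e) ↔ IsCh (fun a b => le (e a) (e b)) (e ⁻¹' B) c := by
  induction c with
  | nil => rfl
  | cons x c ih =>
    obtain _ | ⟨y, l⟩ := c
    · rfl
    · exact and_congr (and_congr_right fun _ => he.ne_iff) ih

theorem map_mem_Sx (he : Function.Injective e) {k : ℕ} {a : T₀} {c : List T₀} :
    c.map e ∈ Sx le B k (e a) ↔ c ∈ Sx (fun a b => le (e a) (e b)) (e ⁻¹' B) k a := by
  refine and_congr (isCh_map he) (and_congr (by simp) ?_)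
  cases c <;> simp

theorem map_mem_So (he : Function.Injective e) {k : ℕ} {a : T₀} {c : List T₀} :
    c.map e ∈ So le B k (e a) ↔ c ∈ So (fun a b => le (e a) (e b)) (e ⁻¹' B) k a :=
  and_congr (map_mem_Sx he) ((List.map_injective_iff.2 he).ne_iff (y := [a]))

theorem exists_map (h : POrd le N) {x : T} (hx : ∀ q, le q x → q ∈ range e) {k : ℕ} {c : List T}
    (hc : c ∈ Sx le B k x) : ∃ c₀ : List T₀, c₀.map e = c := by
  have : c ∈ range (List.map e) := by
    rw [range_list_map]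
    exact fun a ha => hx a (((mem_Sx h).1 hc).2.2 a ha)
  exact this

theorem Sx_eq_image (h : POrd le N) (he : Function.Injective e) {a : T₀}
    (hx : ∀ q, le q (e a) → q ∈ range e) (k : ℕ) :
    Sx le B k (e a) = List.map e '' Sx (fun a b => le (e a) (e b)) (e ⁻¹' B) k a :=
  Subset.antisymm (fun c hc => by
    obtain ⟨c, rfl⟩ := exists_map h hx hc
    exact ⟨c, (map_mem_Sx he).1 hc, rfl⟩) (by rintro _ ⟨c, hc, rfl⟩; exact (map_mem_Sx he).2 hc)

theorem So_eq_image (h : POrd le N) (he : Function.Injective e) {a : T₀}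
    (hx : ∀ q, le q (e a) → q ∈ range e) (k : ℕ) :
    So le B k (e a) = List.map e '' So (fun a b => le (e a) (e b)) (e ⁻¹' B) k a :=
  Subset.antisymm (fun c hc => by
    obtain ⟨c, rfl⟩ := exists_map h hx hc.1
    exact ⟨c, (map_mem_So he).1 hc, rfl⟩) (by rintro _ ⟨c, hc, rfl⟩; exact (map_mem_So he).2 hc)

theorem map_mem_supported (he : Function.Injective e) {k : ℕ} {a : T₀} {ζ : FL T₀} :
    mapDomain (List.map e) ζ ∈ supported ℂ ℂ (So le B k (e a)) ↔
      ζ ∈ supported ℂ ℂ (So (fun a b => le (e a) (e b)) (e ⁻¹' B) k a) := by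
  classical
  rw [mem_supported, mem_supported, mapDomain_support_of_injective (List.map_injective_iff.2 he),
    Finset.coe_image, image_subset_iff]
  exact forall₂_congr fun _ _ => map_mem_So he

theorem map_mem_Zf (he : Function.Injective e) {k : ℕ} {a : T₀} {ζ : FL T₀} :
    mapDomain (List.map e) ζ ∈ Zf le B k (e a) ↔
      ζ ∈ Zf (fun a b => le (e a) (e b)) (e ⁻¹' B) k a :=
  and_congr (map_mem_supported he) (by
    change dF _ = 0 ↔ dF _ = 0
    rw [dF_map, ← mapDomain_zero (f := List.map e),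
      (mapDomain_injective (List.map_injective_iff.2 he)).eq_iff])

theorem exists_map_Zf (h : POrd le N) (he : Function.Injective e) {a : T₀}
    (hx : ∀ q, le q (e a) → q ∈ range e) {k : ℕ} {ζ : FL T} (hζ : ζ ∈ Zf le B k (e a)) :
    ∃ ζ₀ ∈ Zf (fun a b => le (e a) (e b)) (e ⁻¹' B) k a, mapDomain (List.map e) ζ₀ = ζ := by
  have := hζ.1
  rw [So_eq_image h he hx, ← lmapDomain_supported] at this
  obtain ⟨ζ₀, -, rfl⟩ := this
  exact ⟨ζ₀, (map_mem_Zf he).1 hζ, rfl⟩

/-- from the model to the concrete fibre. -/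
theorem Good.push (h : POrd le N) (he : Function.Injective e) {a : T₀}
    (hx : ∀ q, le q (e a) → q ∈ range e) {k : ℕ} {K : Set T} (hK : ∀ q ∈ K, le q (e a))
    {ℓ₀ : List T₀ → FL T₀} (H : Good (fun a b => le (e a) (e b)) (e ⁻¹' B) k a (e ⁻¹' K) ℓ₀) :
    Good le B k (e a) K
      (Function.extend (List.map e) (fun c => mapDomain (List.map e) (ℓ₀ c)) 0) := by
  have hm := List.map_injective_iff.2 he
  refine ⟨fun c hc => ?_, fun ζ hζ => ?_, fun q hq c hc => ?_⟩
  · obtain ⟨c, rfl⟩ := exists_map h hx hc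
    rw [hm.extend_apply]
    exact (map_mem_Zf he).2 (H.mem c ((map_mem_Sx he).1 hc))
  · obtain ⟨ζ, h1, rfl⟩ := exists_map_Zf h he hx hζ
    rw [linearCombination_mapDomain, Function.extend_comp hm]
    conv_rhs => rw [← H.ret ζ h1]
    exact (apply_linearCombination ℂ (lmapDomain ℂ ℂ (List.map e)) ℓ₀ ζ).symm
  · obtain ⟨c, rfl⟩ := exists_map h hx (Sx_mono h (hK q hq) hc)
    obtain ⟨q, rfl⟩ := hx q (hK q hq)
    rw [hm.extend_apply]
    exact (map_mem_supported he).2 (H.cpt q hq c ((map_mem_Sx he).1 hc))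

theorem norm_push_le (he : Function.Injective e) {ℓ₀ : List T₀ → FL T₀} {C : ℝ}
    (hC : ∀ c c', ‖ℓ₀ c c'‖ ≤ C) (c c' : List T) :
    ‖Function.extend (List.map e) (fun c => mapDomain (List.map e) (ℓ₀ c)) 0 c c'‖ ≤ C := by
  have hm := List.map_injective_iff.2 he
  have h0 := (norm_nonneg _).trans (hC [] [])
  by_cases hc : ∃ c₀, List.map e c₀ = c
  · obtain ⟨c, rfl⟩ := hc
    rw [hm.extend_apply]
    by_cases hc' : c' ∈ range (List.map e)
    · obtain ⟨c', rfl⟩ := hc'
      rw [mapDomain_apply hm]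
      exact hC _ _
    · rw [mapDomain_of_notMem_range _ _ hc']; simpa using h0
  · rw [Function.extend_apply' _ _ _ hc]; simpa using h0

/-- from the concrete fibre to the model. -/
theorem Good.pull (h : POrd le N) (he : Function.Injective e) {a : T₀}
    (hx : ∀ q, le q (e a) → q ∈ range e) {k : ℕ} {K : Set T} {ℓ : List T → FL T}
    (H : Good le B k (e a) K ℓ) : Good (fun a b => le (e a) (e b)) (e ⁻¹' B) k a (e ⁻¹' K)
      fun c => lcomapDomain (R := ℂ) (List.map e) (List.map_injective_iff.2 he) (ℓ (c.map e)) := by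
  have hm := List.map_injective_iff.2 he
  have h0 : ∀ ζ : FL T₀, lcomapDomain (R := ℂ) (List.map e) hm (mapDomain (List.map e) ζ) = ζ :=
    fun ζ => Finsupp.ext fun c => mapDomain_apply hm ζ c
  refine ⟨fun c hc => ?_, fun ζ hζ => ?_, fun q hq c hc => ?_⟩
  · obtain ⟨ζ, h1, h2⟩ := exists_map_Zf h he hx (H.mem _ ((map_mem_Sx he).2 hc))
    rwa [← h2, h0]
  · conv_rhs => rw [← h0 ζ, ← H.ret _ ((map_mem_Zf he).2 hζ), linearCombination_mapDomain,
      apply_linearCombination]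
    rfl
  · exact (mem_supported' ℂ _).2 fun c' hc' => (mem_supported' ℂ _).1
      (H.cpt _ hq _ ((map_mem_Sx he).2 hc)) _ fun h' => hc' ((map_mem_So he).1 h')

end Transport

theorem So_sub {B' : Set T} (hB : B' ⊆ B) {k : ℕ} {x : T} : So le B' k x ⊆ So le B k x :=
  fun _ hc => ⟨((mem_Sx_sub hB).1 hc.1).1, hc.2⟩

/-- goodness for all single base points gives goodness. -/
theorem good_combine (h : POrd le N) {k : ℕ} {x : T} {K : Set T}
    (H : ∀ p ∈ B, ∃ ℓ, Good le {p} k x K ℓ) : ∃ ℓ, Good le B k x K ℓ := by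
  classical
  choose! L hL using H
  have key : ∀ {q c}, c ∈ Sx le B k q → ∃ p ∈ B, c.getLast? = some p ∧ c ∈ Sx le {p} k q :=
    fun hc => by
      obtain ⟨p, hp, e⟩ := (isCh_iff.1 hc.1).2
      exact ⟨p, hp, e, (mem_Sx_sub (singleton_subset_iff.2 hp)).2 ⟨hc, p, rfl, e⟩⟩
  refine ⟨fun c => c.getLast?.elim 0 fun p => L p c, fun c hc => ?_, fun ζ hζ => ?_,
    fun q hq c hc => ?_⟩
  · obtain ⟨p, hp, e, h1⟩ := key hc
    rw [e]
    exact inf_le_inf_right _ (supported_mono (So_sub (singleton_subset_iff.2 hp)))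
      ((hL p hp).mem c h1)
  · have h1 := (mem_supported' ℂ _).1 hζ.1
    have e : ζ = ∑ p ∈ (finite_le h x).toFinset with p ∈ B,
        ζ.filter fun c => ∃ p' ∈ ({p} : Set T), c.getLast? = some p' := Finsupp.ext fun c => by
      simp only [finsetSum_apply, filter_apply]
      by_cases hc : c ∈ So le B k x
      · obtain ⟨p, hp, e, -⟩ := key hc.1
        rw [Finset.sum_eq_single_of_mem p (by
          simpa [hp] using ((mem_Sx h).1 hc.1).2.2 p (List.mem_of_getLast? e))]
        · simp [e]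
        · intro b _ hb
          simp [e, hb.symm]
      · simp [h1 c hc]
    rw [e, map_sum]
    refine Finset.sum_congr rfl fun p hp => ?_
    have hp' := (Finset.mem_filter.1 hp).2
    have h2 : (ζ.filter fun c => ∃ p' ∈ ({p} : Set T), c.getLast? = some p') ∈ Zf le {p} k x :=
      ⟨(mem_supported' ℂ _).2 fun c hc => by
        rw [filter_apply]
        split_ifs with h3
        · exact h1 c fun h4 => hc ⟨(mem_Sx_sub (singleton_subset_iff.2 hp')).2 ⟨h4.1, h3⟩, h4.2⟩
        · rfl, by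
        change dF _ = 0
        rw [dF_filter, show dF ζ = 0 from hζ.2, filter_zero]⟩
    refine (ext_supp (fun c hc => ?_) h2.1).trans ((hL p hp').ret _ h2)
    obtain ⟨_, rfl, e⟩ := (isCh_iff.1 hc.1.1).2
    simp [e]
  · obtain ⟨p, hp, e, h1⟩ := key hc
    rw [e]
    exact supported_mono (So_sub (singleton_subset_iff.2 hp)) ((hL p hp).cpt q hq c h1)

theorem good_bounded (h : POrd le N) {k : ℕ} {x : T} {K : Set T} (H : ∃ ℓ, Good le B k x K ℓ) :
    ∃ C : ℝ, ∃ ℓ, Good le B k x K ℓ ∧ ∀ c c', ‖ℓ c c'‖ ≤ C := by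
  classical
  obtain ⟨ℓ, H⟩ := H
  obtain ⟨C, hC⟩ := ((finite_Sx (B := B) h k x).biUnion
    fun c _ => (ℓ c).finite_range.image norm).bddAbove
  refine ⟨max C 0, fun c => if c ∈ Sx le B k x then ℓ c else 0,
    ⟨fun c hc => by rw [if_pos hc]; exact H.mem c hc, fun ζ hζ => ?_, fun q hq c hc => ?_⟩,
    fun c c' => ?_⟩
  · exact (ext_supp (fun c hc => by simp [hc.1]) hζ.1).trans (H.ret ζ hζ)
  · split_ifs
    exacts [H.cpt q hq c hc, zero_mem _]
  · beta_reduce
    split_ifs with hc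
    · exact le_max_of_le_left (hC (mem_biUnion hc ⟨_, ⟨c', rfl⟩, rfl⟩))
    · simp

/-- goodness for all single base points gives goodness with a universal bound. -/
theorem good_uniform (N k : ℕ) : ∃ C : ℝ, ∀ (T : Type) (le : T → T → Prop), POrd le N →
    ∀ (B : Set T) (x : T) (K : Set T), (∀ q ∈ K, le q x) →
      (∀ p ∈ B, ∃ ℓ, Good le {p} k x K ℓ) →
        ∃ ℓ, Good le B k x K ℓ ∧ ∀ c c', ‖ℓ c c'‖ ≤ C := by
  have : ∀ d : Σ m : Fin (N + 1), (Fin m → Fin m → Prop) × Set (Fin m) × Fin m × Set (Fin m),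
      ∃ C : ℝ, POrd d.2.1 N → (∃ ℓ, Good d.2.1 d.2.2.1 k d.2.2.2.1 d.2.2.2.2 ℓ) →
        ∃ ℓ, Good d.2.1 d.2.2.1 k d.2.2.2.1 d.2.2.2.2 ℓ ∧ ∀ c c', ‖ℓ c c'‖ ≤ C := fun d => by
    by_cases h : POrd d.2.1 N ∧ ∃ ℓ, Good d.2.1 d.2.2.1 k d.2.2.2.1 d.2.2.2.2 ℓ
    · obtain ⟨C, hC⟩ := good_bounded h.1 h.2
      exact ⟨C, fun _ _ => hC⟩
    · exact ⟨0, fun h1 h2 => absurd ⟨h1, h2⟩ h⟩
  choose f hf using this
  obtain ⟨C, hC⟩ := (finite_range f).bddAbove
  refine ⟨C, fun T le h B x K hK H => ?_⟩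
  obtain ⟨ℓ, hℓ⟩ := good_combine h H
  obtain ⟨m, hm, e, he, hr⟩ := exists_enum h x
  have hx : ∀ q, le q x → q ∈ range e := fun q hq => hr ▸ hq
  obtain ⟨a, rfl⟩ := hx x (h.refl x)
  obtain ⟨ℓ₀, h1, h2⟩ := hf ⟨⟨m, Nat.lt_succ_of_le hm⟩, fun a b => le (e a) (e b), e ⁻¹' B, a,
    e ⁻¹' K⟩ (h.comap he) ⟨_, hℓ.pull h he hx⟩
  exact ⟨_, Good.push h he hx hK h1, norm_push_le he fun c c' => (h2 c c').trans (hC ⟨_, rfl⟩)⟩

end Fibre

end Pool.Agent.MP_75da70_an.H8
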